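import Pool.Agent.N889.WU.Stm

/-!
# Project WU (helper889): traces of `a db` (helper344)
-/

set_option autoImplicit false

open Polynomial IntermediateField

namespace Pool.Agent.N344.WU

open Pool.Agent.N889.WU

universe u

section

variable {k L : Type u} [Field k] [Field L] [Algebra k L] {π : L}

lemma aeval_ne {p : k[X]} (ht : Transcendental k π) (hp : p ≠ 0) : aeval π p ≠ 0 := by
  intro h
  exact ht ⟨p, hp, h⟩

lemma coeff_ne {g : k[X]} (hg : g.coeff 0 ≠ 0) : g ≠ 0 := by
  rintro rfl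
  simp at hg

/-- the local ring is contained in `k(π)` -/
lemma Oz_le (ht : Transcendental k π) {x : L} (hx : x ∈ Oz k π) : x ∈ k⟮π⟯ := by
  obtain ⟨f, g, hg, h⟩ := hx
  have hg0 := aeval_ne ht (coeff_ne hg)
  rw [IntermediateField.mem_adjoin_simple_iff]
  exact ⟨f, g, by rw [eq_div_iff hg0]; exact h⟩

/-- the derivation maps the local ring to itself -/
lemma D_mem (D : Derivation k L L) (hD : D π = 1) {x : L}
    (hx : x ∈ Oz k π) : D x ∈ Oz k π := by
  obtain ⟨f, g, hg, h⟩ := hx
  refine ⟨derivative f * g - f * derivative g, g * g, by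
    simpa [mul_coeff_zero] using mul_ne_zero hg hg, ?_⟩
  have e : ∀ p : k[X], D (aeval π p) = aeval π (derivative p) := by
    intro p
    rw [Derivation.map_aeval, hD, smul_eq_mul, mul_one]
  have h1 := congrArg D h
  rw [Derivation.leibniz, e, e, smul_eq_mul, smul_eq_mul] at h1
  simp only [map_mul, map_sub]
  linear_combination (aeval π g) * h1 - (aeval π (derivative g)) * h

/-- the local ring is a valuation ring of `k(π)` -/
lemma Oz_or (ht : Transcendental k π) {z : L} (hz : z ∈ k⟮π⟯) : z ∈ Oz k π ∨ z⁻¹ ∈ Oz k π := by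
  rw [IntermediateField.mem_adjoin_simple_iff] at hz
  obtain ⟨r, s, hrs⟩ := hz
  by_cases hs : s = 0
  · left
    rw [hrs, hs, map_zero, div_zero]
    exact (Oz k π).zero_mem
  by_cases hr : r = 0
  · left
    rw [hrs, hr, map_zero, zero_div]
    exact (Oz k π).zero_mem
  have hs0 := aeval_ne ht hs
  classical
  obtain ⟨d, hd⟩ : ∃ d : k[X], d = EuclideanDomain.gcd r s := ⟨_, rfl⟩
  obtain ⟨r', hr'⟩ := EuclideanDomain.gcd_dvd_left r s
  obtain ⟨s', hs'⟩ := EuclideanDomain.gcd_dvd_right r s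
  have hcop : IsCoprime r' s' := by
    have h1 := EuclideanDomain.gcd_eq_gcd_ab r s
    have hd0 : EuclideanDomain.gcd r s ≠ 0 := by
      intro h
      rw [h, zero_mul] at hs'
      exact hs hs'
    refine ⟨EuclideanDomain.gcdA r s, EuclideanDomain.gcdB r s, ?_⟩
    apply mul_left_cancel₀ hd0
    calc EuclideanDomain.gcd r s * (EuclideanDomain.gcdA r s * r' + EuclideanDomain.gcdB r s * s')
        = (EuclideanDomain.gcd r s * r') * EuclideanDomain.gcdA r s +
          (EuclideanDomain.gcd r s * s') * EuclideanDomain.gcdB r s := by ring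
      _ = r * EuclideanDomain.gcdA r s + s * EuclideanDomain.gcdB r s := by rw [← hr', ← hs']
      _ = EuclideanDomain.gcd r s * 1 := by rw [← h1, mul_one]
  rw [← hd] at hr' hs'
  have hd0 : d ≠ 0 := by
    rintro rfl
    rw [zero_mul] at hs'
    exact hs hs'
  have hdπ := aeval_ne ht hd0
  have hs'0 : s' ≠ 0 := by
    rintro rfl
    rw [mul_zero] at hs'
    exact hs hs'
  have hr'0 : r' ≠ 0 := by
    rintro rfl
    rw [mul_zero] at hr'
    exact hr hr'
  have hz : z = aeval π r' / aeval π s' := by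
    rw [hrs, hr', hs', map_mul, map_mul, mul_div_mul_left _ _ hdπ]
  have hs'π := aeval_ne ht hs'0
  have hr'π := aeval_ne ht hr'0
  by_cases hc : s'.coeff 0 = 0
  · right
    refine ⟨s', r', ?_, ?_⟩
    · intro hc2
      obtain ⟨u, v, huv⟩ := hcop
      have h2 := congrArg (fun p : k[X] => p.coeff 0) huv
      simp only [coeff_add, mul_coeff_zero, hc, hc2, mul_zero, add_zero, coeff_one_zero] at h2
      exact zero_ne_one h2
    · rw [hz, inv_div, div_mul_cancel₀ _ hr'π]
  · left
    exact ⟨r', s', hc, by rw [hz, div_mul_cancel₀ _ hs'π]⟩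

/-- an element which is integral over a subring that contains its inverse lies in the subring -/
lemma mem_of_inv {O : Subring L} {z : L} (hz : IsIntegral O z) (hinv : z⁻¹ ∈ O) : z ∈ O := by
  by_cases hz0 : z = 0
  · rw [hz0]; exact O.zero_mem
  obtain ⟨P, hP, hP0⟩ := hz
  let _ : Invertible z := invertibleOfNonzero hz0
  have h1 := Polynomial.eval₂_reverse_mul_pow (algebraMap O L) z P
  rw [hP0] at h1
  have h2 : eval₂ (algebraMap O L) (⅟z) (reverse P) = 0 := by
    rcases mul_eq_zero.1 h1 with h | h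
    · exact h
    · exact absurd h (pow_ne_zero _ hz0)
  rw [invOf_eq_inv] at h2
  have h3 := Polynomial.divX_mul_X_add (reverse P)
  rw [Polynomial.coeff_zero_reverse, hP.leadingCoeff] at h3
  rw [← h3, eval₂_add, eval₂_mul, eval₂_X, eval₂_C, map_one] at h2
  have h4 : z = -eval₂ (algebraMap O L) z⁻¹ (divX (reverse P)) := by
    have h5 : eval₂ (algebraMap O L) z⁻¹ (divX (reverse P)) * z⁻¹ = -1 := by
      linear_combination h2
    have h6 := congrArg (fun y => y * z) h5
    simp only [mul_assoc, inv_mul_cancel₀ hz0, mul_one] at h6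
    rw [h6]
    ring
  rw [h4]
  apply O.neg_mem
  have h7 : eval₂ (algebraMap O L) z⁻¹ (divX (reverse P)) =
      algebraMap O L (eval (⟨z⁻¹, hinv⟩ : O) (divX (reverse P))) := by
    rw [← Polynomial.eval₂_at_apply]
    rfl
  rw [h7]
  exact (eval (⟨z⁻¹, hinv⟩ : O) (divX (reverse P))).2

/-- the trace of an integral element -/
lemma tr_int (hs : SepFin k π) {w : L} (hw : IsIntegral (Oz k π) w) :
    TrL k⟮π⟯ w ∈ Oz k π := by
  obtain ⟨ht, hfin, hsep⟩ := hs
  let _ : Algebra (Oz k π) k⟮π⟯ :=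
    RingHom.toAlgebra (RingHom.codRestrict (Oz k π).subtype k⟮π⟯ (fun x => Oz_le ht x.2))
  have _ : IsScalarTower (Oz k π) k⟮π⟯ L := IsScalarTower.of_algebraMap_eq (fun x => rfl)
  have h1 : IsIntegral (Oz k π) (Algebra.trace k⟮π⟯ L w) := Algebra.isIntegral_trace hw
  have h2 : IsIntegral (Oz k π) (TrL k⟮π⟯ w) := h1.algebraMap
  have h3 : TrL k⟮π⟯ w ∈ k⟮π⟯ := (Algebra.trace k⟮π⟯ L w).2
  rcases Oz_or ht h3 with h | h
  · exact h
  · exact mem_of_inv h2 h

lemma TrL_add (F : IntermediateField k L) (x y : L) : TrL F (x + y) = TrL F x + TrL F y := by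
  unfold TrL
  rw [map_add, map_add]

lemma TrL_mul (F : IntermediateField k L) {c : L} (hc : c ∈ F) (y : L) :
    TrL F (c * y) = c * TrL F y := by
  unfold TrL
  have h : c * y = (⟨c, hc⟩ : F) • y := rfl
  rw [h, map_smul, smul_eq_mul, map_mul]
  rfl

/-- `p(x) dx` has regular trace -/
lemma poly_mem (hs : SepFin k π) {x y : L}
    (hj : ∀ j : ℕ, TrL k⟮π⟯ (x ^ j * y) ∈ Oz k π) (P : (Oz k π)[X]) :
    TrL k⟮π⟯ (aeval x P * y) ∈ Oz k π := by
  induction P using Polynomial.induction_on' with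
  | add p q hp hq =>
    rw [map_add, add_mul, TrL_add]
    exact (Oz k π).add_mem hp hq
  | monomial n c =>
    rw [aeval_monomial, mul_assoc]
    have h : TrL k⟮π⟯ ((algebraMap (Oz k π) L c) * (x ^ n * y)) =
        (c : L) * TrL k⟮π⟯ (x ^ n * y) := TrL_mul _ (Oz_le hs.1 c.2) _
    rw [h]
    exact (Oz k π).mul_mem c.2 (hj n)

/-- the differential of a polynomial in `x` -/
lemma D_poly (D : Derivation k L L) (hs : SepFin k π) (hD : D π = 1) {x : L}
    (hx : IsIntegral (Oz k π) x) (P : (Oz k π)[X]) :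
    ∃ w : L, IsIntegral (Oz k π) w ∧ D (aeval x P) = w + aeval x (derivative P) * D x := by
  induction P using Polynomial.induction_on' with
  | add p q hp hq =>
    obtain ⟨w1, h1, h1'⟩ := hp
    obtain ⟨w2, h2, h2'⟩ := hq
    refine ⟨w1 + w2, h1.add h2, ?_⟩
    rw [map_add, map_add, h1', h2', derivative_add, map_add]
    ring
  | monomial n c =>
    refine ⟨D c * x ^ n, ?_, ?_⟩
    · have h1 : IsIntegral (Oz k π) (D c) :=
        isIntegral_algebraMap (x := (⟨D c, D_mem D hD c.2⟩ : Oz k π))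
      exact h1.mul (hx.pow n)
    · rw [derivative_monomial, aeval_monomial, aeval_monomial, Derivation.leibniz,
        Derivation.leibniz_pow]
      have e1 : algebraMap (Oz k π) L (c * (n : Oz k π)) = (c : L) * n := by
        rw [map_mul, map_natCast]
        rfl
      have e2 : algebraMap (Oz k π) L c = (c : L) := rfl
      rw [e1, e2, smul_eq_mul, smul_eq_mul, smul_eq_mul, nsmul_eq_mul]
      ring

end

/-- **TRREG** -/
theorem t_TRREG (hMON : S_MON.{u}) (hGEN : S_GEN.{u}) : S_TRREG.{u} := by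
  intro k L _ _ _ _ π D hs hD a b ha hb
  obtain ⟨x, hx, hgen⟩ := hMON k L π hs
  obtain ⟨A, hA⟩ := hgen a ha
  obtain ⟨B, hB⟩ := hgen b hb
  obtain ⟨w, hw, hDb⟩ := D_poly D hs hD hx B
  have h1 : a * D b = a * w + aeval x (A * derivative B) * D x := by
    rw [hB, hDb, map_mul, ← hA]
    ring
  rw [h1, TrL_add]
  exact (Oz k π).add_mem (tr_int hs (ha.mul hw))
    (poly_mem hs (hGEN k L π D hs hD x hx) _)

end Pool.Agent.N344.WU
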